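import Pool.Agent.Helper27.BI.S5.Geo5

/-!
# Project BI, stage 5, module EXA: exactness
-/

set_option autoImplicit false

open scoped Manifold ContDiff Topology ComplexConjugate
open Set Filter Pool.Agent.Helper65.Barb Pool.Agent.Helper18.BI
open Pool.Agent.Helper70.BI (I4 LD NearEq IsW)
open Pool.Agent.Helper34.BI (rade qe)
open Pool.Agent.Helper27.BI (e1)
open Pool.Agent.Helper27.H
open Pool.Agent.Helper18.BI.R (LoopOK SH)

namespace Pool.Agent.Helper27.S5

namespace EXA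

open Geo

theorem K3_mono {δ δ' : ℝ} (h : δ ≤ δ') : K3 δ ⊆ K3 δ' :=
  fun _ hp => ⟨hp.1, hp.2.1, by linarith [hp.2.2]⟩

theorem Reg_mono {δ δ' : ℝ} (h : δ ≤ δ') : Reg δ ⊆ Reg δ' :=
  fun _ hp => ⟨hp.1, hp.2.1, by linarith [hp.2.2.1], hp.2.2.2⟩

theorem rsq_z0 (s : ℝ) : rsq 1 (s, z0 s) = bfin s ^ 2 := by
  rw [rsq1, z0_def]
  simp

section par
variable {δ δ' κ β c : ℝ} (hp : Par δ δ' κ β)
include hp

/-- the finger over `e1` -/
theorem z0_XX {s : ℝ} (h0 : 0 ≤ s) (h1 : s ≤ 1) (hs : 1 / 25 - δ' ≤ bfin s ^ 2) :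
    (s, z0 s) ∈ XX δ' κ β ∨ (s, z0 s) ∈ tb c := by
  by_cases hm : 11 / 25 < s ∧ s < 14 / 25
  · right
    refine ⟨hm.1, hm.2, ?_⟩
    show nsq (z0 s - z0 s) ≤ _
    rw [sub_self]
    have : nsq (0 : R3) = 0 := (nsq_zero_iff 0).2 rfl
    rw [this]
    positivity
  · left
    refine ⟨⟨h0, h1, ?_, ?_⟩, ?_⟩
    · rw [rsq_z0]
      linarith [(hδ' hp).1]
    · rw [rsq_z0]
      have a1 := bfin_le s
      have a2 := bfin_nonneg s
      nlinarith
    · rintro (h2 | h2)
      · have h3 := line_dist hp (hol_near hp h2) (1 - bfin s)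
        have h4 : ((s, z0 s) : R4).2 - (1 - bfin s) • e1 = 0 := by
          show z0 s - (1 - bfin s) • e1 = 0
          unfold z0
          exact sub_self _
        rw [h4, (nsq_zero_iff 0).2 rfl] at h3
        have h5 := num_lo hp
        nlinarith
      · exact hm ⟨h2.1, h2.2.1⟩

variable {a b : ℝ} (hab : Arc2 δ' κ a b)
include hab

/-- the second finger -/
theorem z2_XX {s : ℝ} (hs : s ∈ Icc a b) (hc : c ∈ Ioo (0 : ℝ) 1) :
    (s, z2 c β s) ∈ XX δ' κ β ∨ (s, z2 c β s) ∈ tb c := by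
  have hb : κ ^ 2 * (1 / 25 - δ') ≤ bfin s ^ 2 := by
    obtain ⟨h1, h2⟩ := hs
    rcases h1.lt_or_eq with h1 | rfl
    · rcases h2.lt_or_eq with h2 | rfl
      · exact (hab.ins s ⟨h1, h2⟩).le
      · exact hab.eb.ge
    · exact hab.ea.ge
  have n1 := num_lo hp
  have n2 := num_hi hp
  have k0 := hp.k0
  have d' := hδ' hp
  by_cases hm : 11 / 25 < s ∧ s < 14 / 25
  · right
    refine ⟨hm.1, hm.2, ?_⟩
    show nsq (z2 c β s - z0 s) ≤ _
    rw [nsq_z20, lam_mid c ⟨by linarith [hm.1], by linarith [hm.2]⟩]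
    have h1 : 0 ≤ c * β := mul_nonneg hc.1.le (by linarith)
    have h2 : c * β ≤ c * (41 / 200) := mul_le_mul_of_nonneg_left (by linarith) hc.1.le
    exact pow_le_pow_left₀ h1 h2 2
  · left
    have l0 := lam_pos hc s
    have l1 := lam_le hc s
    have b0 := bfin_nonneg s
    have b1 := bfin_le s
    have hβ : 0 < β := by linarith
    refine ⟨⟨by linarith [hab.ma.1, hs.1], by linarith [hab.mb.2, hs.2], ?_, ?_⟩, ?_⟩
    · rw [rsq_z2]
      by_cases hl : lam c s = 1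
      · rw [hl, one_mul]
        have h1 : (β - κ) ^ 2 ≤ β ^ 2 := pow_le_pow_left₀ (by linarith) (by linarith) 2
        have h2 := hp.lo
        nlinarith [sq_nonneg (bfin s)]
      · rw [bfin_of_lam hl]
        have h1 := sq_nonneg (lam c s * β)
        norm_num
        linarith [d'.1]
    · rw [rsq_z2]
      have h1 : bfin s ^ 2 ≤ (27 / 100) ^ 2 := pow_le_pow_left₀ b0 b1 2
      have h2 : lam c s * β ≤ 1 / 5 := by nlinarith
      have h3 : (lam c s * β) ^ 2 ≤ (1 / 5) ^ 2 := pow_le_pow_left₀ (by positivity) h2 2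
      norm_num at h1 h3
      linarith
    · rintro (h2 | h2)
      · have h3 := h2.2.2
        rw [rsq_sgi k0] at h3
        have h4 : nsq (((s, z2 c β s) : R4).2 - P2 β) = bfin s ^ 2 + (1 - lam c s) ^ 2 * β ^ 2 :=
          nsq_z2 c β s
        rw [h4, div_lt_iff₀ (by positivity)] at h3
        have h5 : 0 ≤ (1 - lam c s) ^ 2 * β ^ 2 := by positivity
        have h6 : 0 < κ ^ 2 := by positivity
        nlinarith [d'.1, mul_pos d'.1 h6]
      · exact hm ⟨h2.1, h2.2.1⟩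

end par

theorem A_off {T' G : R4 → R4} {D : ArcD} {δ δ' δ'' κ β c : ℝ} (hp : Par δ δ' κ β)
    (hd : δ'' ≤ δ') (hD : HatOk δ'' T' G D) {x : R4} (hx : x ∈ D.A) :
    x ∈ G '' XX δ' κ β ∨ x ∈ G '' tb c := by
  obtain ⟨p, ⟨h1, h2, h3⟩, rfl⟩ := hx
  have hg : 1 / 25 - δ'' ≤ bfin p.1 ^ 2 := by
    rcases h1.lt_or_eq with h1 | h1
    · rcases h2.lt_or_eq with h2 | h2
      · exact (hD.b p.1 ⟨h1, h2⟩).le
      · rw [h2]
        exact hD.b₁.ge
    · rw [← h1]
      exact hD.b₀.ge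
  have e : D.J p = G (p.1, z0 p.1) := by
    rw [hD.J]
    show G (p.1, z0 p.1 + p.2) = _
    rw [h3, add_zero]
  rw [e]
  rcases z0_XX (c := c) hp (s := p.1) (by linarith [hD.s₀.1]) (by linarith [hD.s₁.2])
    (by linarith) with h | h
  · exact Or.inl ⟨_, h, rfl⟩
  · exact Or.inr ⟨_, h, rfl⟩

end EXA

open EXA Geo in
/-- module EXA -/
theorem m_EXA (hHE : StHE) : StEXA := by
  intro G T T' δ δ' κ β c D D' H a b hS K Θ Θ' hK hKX hKt hSD
  have hp := hS.par
  have d := hδ hp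
  have d' := hδ' hp
  have hdd : δ ≤ δ' := by linarith [hp.d0, hp.d1]
  have offX : ∀ x ∈ K, ∀ p ∈ XX δ' κ β, G p ≠ x := fun x hx p hpX h =>
    hKX hx ⟨p, hpX, h⟩
  have offt : ∀ x ∈ K, ∀ p ∈ tb c, G p ≠ x := fun x hx p hpt h =>
    disjoint_left.1 hKt hx ⟨p, hpt, h⟩
  have offXt : ∀ x ∈ K, ¬(x ∈ G '' XX δ' κ β ∨ x ∈ G '' tb c) := by
    rintro x hx (⟨p, h1, h2⟩ | ⟨p, h1, h2⟩)
    · exact offX x hx p h1 h2
    · exact offt x hx p h1 h2
  have hK1 : K ⊆ D.U \ D.A := by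
    intro x hx
    refine ⟨?_, fun h => offXt x hx (A_off hp hdd hS.hat h)⟩
    rw [hS.hat.U]
    rintro ⟨p, h1, h2⟩
    exact offX x hx p (wall_XX' hp h1) h2
  have hK2 : K ⊆ U2 G δ' κ β \ (D'.A ∪ A2 G H β a b) := by
    intro x hx
    refine ⟨?_, ?_⟩
    · rintro ⟨p, h1 | h1, h2⟩
      · exact offX x hx p (wall_XX hp h1) h2
      · exact offX x hx p (wall2_XX hp h1) h2
    · rintro (h | ⟨p, ⟨h1, h2, h3⟩, h4⟩)
      · exact offXt x hx (A_off hp le_rfl hS.hat' h)
      · have h5 : p = (p.1, P2 β) := Prod.ext rfl h1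
        have h6 : H.f (1, p) = (p.1, z2 c β p.1) := by
          rw [h5]
          exact H_P2 hS.th hp p.1
        have h7 : G (p.1, z2 c β p.1) = x := by
          rw [← h6]
          exact h4
        rcases z2_XX hp hS.ab (s := p.1) ⟨h2, h3⟩ hS.mc with h | h
        · exact offX x hx _ h h7
        · exact offt x hx _ h h7
  have hGδ : EmbOn I4 G (K3 δ) :=
    ⟨fun p hp' => hS.emb.1 p (K3_mono hdd hp'), hS.emb.2.mono (K3_mono hdd)⟩
  obtain ⟨hE1, hE2⟩ := hHE G T T' δ c D H hS.fb d hGδ hS.hat hS.th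
  refine ⟨hK1, hK2, ?_⟩
  have hC := hE2 K Θ Θ' hK hK1 hSD
  -- the two embeddings agree on `K`
  have hinj : InjOn G (Reg δ') := hS.emb.2.mono Reg_K3
  have hEq : EqOn (hatE G δ (fun p => H.g (1, p))) (EE G H δ' κ β) K := by
    intro x hx
    have i1 := hImp R4 R4 I4 R4 G (Reg δ) (fun p => rade δ 1 (H.g (1, p)))
      (hinj.mono (Reg_mono hdd))
    have i2 := hImp R4 R4 I4 R4 G (Reg δ' \ hol δ' κ β)
      (fun p => rade δ' 1 (rad2 δ' κ β (H.g (1, p)))) (hinj.mono sdiff_subset)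
    show imp G (Reg δ) (fun p => rade δ 1 (H.g (1, p))) x =
      imp G (Reg δ' \ hol δ' κ β) (fun p => rade δ' 1 (rad2 δ' κ β (H.g (1, p)))) x
    by_cases hxR : x ∈ G '' Reg δ'
    · obtain ⟨p, hpR, rfl⟩ := hxR
      have hpX : p ∉ XX δ' κ β := fun h => offX _ hx p h rfl
      have hpc : p ∈ hol δ' κ β ∪ Chn := by
        by_contra h
        exact hpX ⟨hpR, h⟩
      rcases hpc with hh | hh
      · rw [i1.2.1, i2.2.1]
        · rintro ⟨q, hq, hqp⟩
          have := hinj hq.1 hpR hqp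
          subst this
          exact hq.2 hh
        · rintro ⟨q, hq, hqp⟩
          have := hinj (Reg_mono hdd hq) hpR hqp
          subst this
          exact absurd (rsq_hi hp (hol_near hp hh)) (not_lt.2 hq.2.2.1)
      · have hr := Chn_rsq hp hh
        have hp1 : p ∈ Reg δ := ⟨hpR.1, hpR.2.1, by norm_num at hr; linarith [d.1], hpR.2.2.2⟩
        have hp2 : p ∈ Reg δ' \ hol δ' κ β := ⟨hpR, fun h => not_Chn hp (hol_near hp h) hh⟩
        have hpt : p ∉ tb c := fun h => offt _ hx p h rfl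
        have hq : (41 / 200) ^ 2 < rsq 1 (H.g (1, p)) := by
          by_contra hq
          push Not at hq
          have h1 := H_ball hS.th hq
          rw [H.fg] at h1
          obtain ⟨h2, h3⟩ := Prod.ext_iff.1 h1
          replace h2 : p.1 = (H.g (1, p)).1 := h2
          replace h3 : p.2 = z0 (H.g (1, p)).1 +
            lam c (H.g (1, p)).1 • ((H.g (1, p)).2 - e1) := h3
          rw [← h2, lam_mid c ⟨by linarith [hh.1], by linarith [hh.2.1]⟩] at h3
          refine hpt ⟨hh.1, hh.2.1, ?_⟩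
          rw [h3, add_sub_cancel_left, Pool.Agent.Helper27.H.nsq_smul, mul_pow, ← rsq1_eq]
          exact mul_le_mul_of_nonneg_left hq (sq_nonneg c)
        have hq25 : 1 / 25 < rsq 1 (H.g (1, p)) := by
          norm_num at hq
          linarith
        have hs25 : 1 / 25 < rsq 1 (sgi κ β (H.g (1, p))) := by
          by_contra h
          push Not at h
          have h1 := rsq_hi hp (near_of hp h)
          linarith [d.1]
        rw [i1.1 p hp1, i2.1 p hp2, rade_fix d (by linarith [d.1]),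
          rad2_fix d' hp.k0 β (by linarith [d'.1]), rade_fix d' (by linarith [d'.1])]
    · rw [i1.2.1 x fun h => hxR (image_mono (Reg_mono hdd) h),
        i2.2.1 x fun h => hxR (image_mono sdiff_subset h)]
  have hΘ : MapsTo Θ K K := by
    intro x hx
    by_contra h
    obtain ⟨-, -, -, h4, h5⟩ := hSD
    have h6 := h5 _ h
    have h7 : Θ x = x := by
      have h8 := h4 (Θ x)
      rw [h6, h4 x] at h8
      exact h8.symm
    rw [h7] at h
    exact h hx
  have hI := (hImp R4 R4 I4 R4 (hatE G δ (fun p => H.g (1, p))) K Θ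
    (hE1.2.mono hK1)).2.2.2.2.2.1 (EE G H δ' κ β) hEq hΘ
  rw [← hI]
  exact hC

end Pool.Agent.Helper27.S5
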