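import Pool.Agent.Helper27.BI.S5.St5n

/-!
# Project BI, stage 5, module N2b: pushing off the thick sphere
-/

set_option autoImplicit false

open scoped Topology
open Set Pool.Agent.Helper65.Barb Pool.Agent.Helper18.BI
open Pool.Agent.Helper27.BI (e1)
open Pool.Agent.Helper27.H

namespace Pool.Agent.Helper27.S5

namespace N2b

theorem cont_rsq : Continuous (fun p : R4 => rsq 1 p) := by
  unfold rsq nsq
  fun_prop

theorem rsq_nonneg (p : R4) : 0 ≤ rsq 1 p := by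
  unfold rsq nsq
  positivity

/-- the norm function -/
noncomputable def N (δ : ℝ) (p : R4) : ℝ :=
  max (2 * |p.1 - 1 / 2|) (|rsq 1 p - (1 / 25 - 2 * δ)| / δ)

theorem cont_N (δ : ℝ) : Continuous (N δ) := by
  unfold N
  have h := cont_rsq
  fun_prop

theorem N_pos {δ : ℝ} (hδ : 0 < δ) {p : R4} (h : ¬(p.1 = 1 / 2 ∧ rsq 1 p = 1 / 25 - 2 * δ)) :
    0 < N δ p := by
  unfold N
  by_cases h1 : p.1 = 1 / 2
  · have h2 : rsq 1 p - (1 / 25 - 2 * δ) ≠ 0 := fun h3 => h ⟨h1, by linarith⟩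
    exact lt_max_of_lt_right (div_pos (abs_pos.2 h2) hδ)
  · exact lt_max_of_lt_left (mul_pos two_pos (abs_pos.2 (sub_ne_zero.2 h1)))

theorem N_gt {δ : ℝ} (hδ : 0 < δ) {p : R4} (h : p ∉ wallS δ) : 1 < N δ p := by
  by_contra hN
  push Not at hN
  unfold N at hN
  have h1 := (le_max_left _ _).trans hN
  have h2 := (le_max_right _ _).trans hN
  rw [div_le_one hδ, abs_le] at h2
  have h3 : |p.1 - 1 / 2| ≤ 1 / 2 := by linarith
  rw [abs_le] at h3
  exact h ⟨by linarith, by linarith, by linarith, by linarith⟩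

theorem not_wall {δ : ℝ} (hδ : 0 < δ) {p : R4} (h : 1 < N δ p) : p ∉ wallS δ := by
  rintro ⟨h1, h2, h3, h4⟩
  have h5 : |p.1 - 1 / 2| ≤ 1 / 2 := abs_le.2 ⟨by linarith, by linarith⟩
  have h6 : |rsq 1 p - (1 / 25 - 2 * δ)| ≤ δ := abs_le.2 ⟨by linarith, by linarith⟩
  have h7 : N δ p ≤ 1 := max_le (by linarith) ((div_le_one hδ).2 h6)
  linarith

/-- the stretching factor -/
noncomputable def tt (δ ν : ℝ) (p : R4) : ℝ := max 1 (ν / N δ p)

/-- the radial factor -/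
noncomputable def fac2 (δ ν : ℝ) (p : R4) : ℝ :=
  Real.sqrt (1 + (tt δ ν p - 1) * (rsq 1 p - (1 / 25 - 2 * δ)) / max (rsq 1 p) (1 / 500))

/-- the push -/
noncomputable def om (δ ν : ℝ) (p : R4) : R4 :=
  (1 / 2 + tt δ ν p * (p.1 - 1 / 2), e1 + fac2 δ ν p • (p.2 - e1))

theorem rsq_om (δ ν : ℝ) (p : R4) : rsq 1 (om δ ν p) = fac2 δ ν p ^ 2 * rsq 1 p := by
  unfold om rsq nsq e1
  simp only [Prod.fst_add, Prod.snd_add, Prod.smul_fst, Prod.smul_snd, Prod.fst_sub, Prod.snd_sub,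
    smul_eq_mul, Complex.add_re, Complex.add_im, Complex.zero_re, Complex.zero_im,
    Complex.real_smul, Complex.mul_re, Complex.mul_im, Complex.ofReal_re, Complex.ofReal_im,
    Complex.sub_re, Complex.sub_im]
  ring

theorem om_eq {δ ν : ℝ} (hν : 1 < ν) {p : R4} (h : ν ≤ N δ p) : om δ ν p = p := by
  have h1 : tt δ ν p = 1 := by
    unfold tt
    refine max_eq_left ((div_le_one ?_).2 h)
    linarith
  have h2 : fac2 δ ν p = 1 := by
    unfold fac2
    rw [h1]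
    simp
  unfold om
  rw [h1, h2]
  refine Prod.ext ?_ ?_
  · show 1 / 2 + 1 * (p.1 - 1 / 2) = p.1
    ring
  · show e1 + (1 : ℝ) • (p.2 - e1) = p.2
    rw [one_smul]
    abel

theorem om_N {δ ν : ℝ} (hδ : 0 < δ) (hδ' : δ < 1 / 100) (hν' : ν ≤ 5 / 4) {p : R4}
    (h0 : 0 < N δ p) (h : N δ p < ν) : N δ (om δ ν p) = ν := by
  have ht : tt δ ν p = ν / N δ p := by
    unfold tt
    exact max_eq_right ((one_le_div h0).2 h.le)
  have ht1 : 1 ≤ tt δ ν p := le_max_left _ _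
  have htN : tt δ ν p * N δ p = ν := by
    rw [ht]
    exact div_mul_cancel₀ _ h0.ne'
  have hr : |rsq 1 p - (1 / 25 - 2 * δ)| ≤ N δ p * δ := by
    have h1 : |rsq 1 p - (1 / 25 - 2 * δ)| / δ ≤ N δ p := le_max_right _ _
    rwa [div_le_iff₀ hδ] at h1
  have hr2 : |tt δ ν p * (rsq 1 p - (1 / 25 - 2 * δ))| ≤ ν * δ := by
    rw [abs_mul, abs_of_nonneg (by linarith)]
    calc tt δ ν p * |rsq 1 p - (1 / 25 - 2 * δ)| ≤ tt δ ν p * (N δ p * δ) :=
          mul_le_mul_of_nonneg_left hr (by linarith)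
      _ = ν * δ := by rw [← mul_assoc, htN]
  have hνδ : ν * δ ≤ 5 / 4 * δ := mul_le_mul_of_nonneg_right hν' hδ.le
  have hNδ : N δ p * δ ≤ 5 / 4 * δ := mul_le_mul_of_nonneg_right (h.le.trans hν') hδ.le
  have hrp : 1 / 500 ≤ rsq 1 p := by
    have := (abs_le.1 hr).1
    nlinarith
  have hk : 0 ≤ (1 / 25 - 2 * δ) + tt δ ν p * (rsq 1 p - (1 / 25 - 2 * δ)) := by
    have := (abs_le.1 hr2).1
    nlinarith
  have hmax : max (rsq 1 p) (1 / 500) = rsq 1 p := max_eq_left hrp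
  have hrp0 : 0 < rsq 1 p := by linarith
  have hid : 1 + (tt δ ν p - 1) * (rsq 1 p - (1 / 25 - 2 * δ)) / rsq 1 p =
      ((1 / 25 - 2 * δ) + tt δ ν p * (rsq 1 p - (1 / 25 - 2 * δ))) / rsq 1 p := by
    rw [eq_div_iff hrp0.ne', add_mul, one_mul, div_mul_cancel₀ _ hrp0.ne']
    ring
  have hrom : rsq 1 (om δ ν p) =
      (1 / 25 - 2 * δ) + tt δ ν p * (rsq 1 p - (1 / 25 - 2 * δ)) := by
    rw [rsq_om]
    unfold fac2
    rw [hmax, hid, Real.sq_sqrt (div_nonneg hk hrp0.le), div_mul_cancel₀ _ hrp0.ne']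
  have h1 : (om δ ν p).1 - 1 / 2 = tt δ ν p * (p.1 - 1 / 2) := by
    unfold om
    ring
  have h2 : rsq 1 (om δ ν p) - (1 / 25 - 2 * δ) = tt δ ν p * (rsq 1 p - (1 / 25 - 2 * δ)) := by
    rw [hrom]
    ring
  have ht0 : 0 ≤ tt δ ν p := by linarith
  unfold N
  rw [h1, h2, abs_mul, abs_mul, abs_of_nonneg ht0]
  have h3 : 2 * (tt δ ν p * |p.1 - 1 / 2|) = tt δ ν p * (2 * |p.1 - 1 / 2|) := by ring
  have h4 : tt δ ν p * |rsq 1 p - (1 / 25 - 2 * δ)| / δ =
      tt δ ν p * (|rsq 1 p - (1 / 25 - 2 * δ)| / δ) := by ring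
  rw [h3, h4, ← mul_max_of_nonneg _ _ ht0]
  exact htN

end N2b

open N2b in
/-- module N2b -/
theorem m_N2b : StN2b := by
  intro δ hδ K hK hdis
  obtain ⟨hδ0, hδ1⟩ := hδ
  -- the number `ν`
  obtain ⟨ν, hν1, hν2, hνK⟩ : ∃ ν : ℝ, 1 < ν ∧ ν ≤ 5 / 4 ∧ ∀ p ∈ K, ν ≤ N δ p := by
    rcases K.eq_empty_or_nonempty with rfl | hne
    · exact ⟨5 / 4, by norm_num, le_rfl, fun p hp => absurd hp (notMem_empty p)⟩
    · obtain ⟨p₀, hp₀, hmin⟩ := hK.exists_isMinOn hne (cont_N δ).continuousOn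
      refine ⟨min (N δ p₀) (5 / 4), lt_min ?_ (by norm_num), min_le_right _ _, ?_⟩
      · exact N_gt hδ0 (disjoint_left.1 hdis hp₀)
      · intro p hp
        exact (min_le_left _ _).trans (hmin hp)
  refine ⟨om δ ν, ?_, ?_, ?_⟩
  · -- continuity
    have hN : ContinuousOn (N δ) {p : R4 | ¬(p.1 = 1 / 2 ∧ rsq 1 p = 1 / 25 - 2 * δ)} :=
      (cont_N δ).continuousOn
    have ht : ContinuousOn (tt δ ν) {p : R4 | ¬(p.1 = 1 / 2 ∧ rsq 1 p = 1 / 25 - 2 * δ)} := by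
      unfold tt
      exact ContinuousOn.sup continuousOn_const
        (continuousOn_const.div hN fun p hp => (N_pos hδ0 hp).ne')
    have hr : ContinuousOn (fun p : R4 => rsq 1 p)
        {p : R4 | ¬(p.1 = 1 / 2 ∧ rsq 1 p = 1 / 25 - 2 * δ)} := cont_rsq.continuousOn
    have hf : ContinuousOn (fac2 δ ν) {p : R4 | ¬(p.1 = 1 / 2 ∧ rsq 1 p = 1 / 25 - 2 * δ)} := by
      unfold fac2
      refine ContinuousOn.sqrt (continuousOn_const.add (ContinuousOn.div
        ((ht.sub continuousOn_const).mul (hr.sub continuousOn_const))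
        (ContinuousOn.sup hr continuousOn_const) ?_))
      intro p _
      have : (1 / 500 : ℝ) ≤ max (rsq 1 p) (1 / 500) := le_max_right _ _
      linarith
    unfold om
    refine ContinuousOn.prodMk ?_ ?_
    · exact continuousOn_const.add (ht.mul (continuous_fst.continuousOn.sub continuousOn_const))
    · exact continuousOn_const.add
        (hf.smul (continuous_snd.continuousOn.sub continuousOn_const))
  · intro p hp
    refine not_wall hδ0 ?_
    rcases le_or_gt ν (N δ p) with h | h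
    · rw [om_eq hν1 h]
      linarith
    · rw [om_N hδ0 hδ1 hν2 (N_pos hδ0 hp) h]
      exact hν1
  · intro p hp
    exact om_eq hν1 (hνK p hp)

end Pool.Agent.Helper27.S5
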